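import Pool.Agent.helper41.G5.SpecG

/-!
# Project d2: (MP_5823cb_al), row d2:gOPX: the operators of the digits
-/

set_option autoImplicit false

open Filter Topology MeasureTheory

namespace Pool.Agent.helper90.DH

open Pool.Agent.helper64.D2

theorem gOPX_cell (u : ℕ) (k k' : ℤ) (x : ℝ) (h : x ∈ cell u k) (h' : x ∈ cell u k') : k = k' := by
  obtain ⟨h1, h2⟩ := h
  obtain ⟨h3, h4⟩ := h'
  have h2u : (0 : ℝ) < 2 ^ u := by positivity
  rw [div_le_iff₀ h2u] at h1 h3
  rw [lt_div_iff₀ h2u] at h2 h4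
  have h5 : (k : ℝ) < k' + 1 := by linarith
  have h6 : (k' : ℝ) < k + 1 := by linarith
  have h7 : k < k' + 1 := by exact_mod_cast h5
  have h8 : k' < k + 1 := by exact_mod_cast h6
  omega

theorem gOPX_inner (g h : ℝ → ℝ) (a b : MeasureTheory.Lp ℝ 2 (volume : Measure ℝ)) (ha : (a : ℝ → ℝ) =ᵐ[volume] g)
    (hb : (b : ℝ → ℝ) =ᵐ[volume] h) : inner ℝ a b = ∫ x, g x * h x := by
  rw [MeasureTheory.L2.inner_def]
  refine integral_congr_ae ?_
  filter_upwards [ha, hb] with x h1 h2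
  rw [h1, h2]
  simp [mul_comm]

/-- one operator. -/
theorem gOPX_one (hFNC : gFNC_stmt) (s n : ℕ) (c : ℝ → ℝ) (F : EuclideanSpace ℝ (Fin n) →ₗ[ℝ] (ℝ → ℝ)) (A : Set ℝ)
    (hA : MeasurableSet A) (hC : NL c) (hF : ∀ v, VS s (F v)) (hi : ∀ v w, ∫ x, F v x * F w x = inner ℝ v w) :
    ∃ X : EuclideanSpace ℝ (Fin n) →L[ℝ] MeasureTheory.Lp ℝ 2 (volume : Measure ℝ),
      (∀ v, (X v : ℝ → ℝ) =ᵐ[volume] A.indicator (fun x => F v (c x))) ∧ ‖X‖ ≤ 11 / 10 := by
  have h0 : ∀ v, MemLp (A.indicator (fun x => F v (c x))) 2 volume := fun v =>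
    (hFNC (s + 1) (F v) c (hF v).1 (hF v).2.1 hC).2.2.2.2.2.1.indicator hA
  have h1 : ∀ v w, (h0 (v + w)).toLp _ = (h0 v).toLp _ + (h0 w).toLp _ := by
    intro v w
    rw [← MemLp.toLp_add]
    refine MemLp.toLp_congr _ _ (Eventually.of_forall fun x => ?_)
    rw [map_add]
    by_cases hx : x ∈ A
    · simp [Set.indicator_of_mem hx]
    · simp [Set.indicator_of_notMem hx]
  have h2 : ∀ (r : ℝ) v, (h0 (r • v)).toLp _ = r • (h0 v).toLp _ := by
    intro r v
    rw [← MemLp.toLp_const_smul]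
    refine MemLp.toLp_congr _ _ (Eventually.of_forall fun x => ?_)
    rw [map_smul]
    by_cases hx : x ∈ A
    · simp [Set.indicator_of_mem hx]
    · simp [Set.indicator_of_notMem hx]
  have h3 : ∀ v, ‖(h0 v).toLp _‖ ≤ 11 / 10 * ‖v‖ := by
    intro v
    have e1 : ‖(h0 v).toLp _‖ ^ 2 = ∫ x, A.indicator (fun x => F v (c x)) x * A.indicator (fun x => F v (c x)) x := by
      rw [← real_inner_self_eq_norm_sq]
      exact gOPX_inner _ _ _ _ (h0 v).coeFn_toLp (h0 v).coeFn_toLp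
    obtain ⟨-, -, -, -, -, e2, e3⟩ := hFNC (s + 1) (F v) c (hF v).1 (hF v).2.1 hC
    have e4 : ∫ x, A.indicator (fun x => F v (c x)) x * A.indicator (fun x => F v (c x)) x ≤ nsq (fun x => F v (c x)) := by
      unfold nsq
      refine integral_mono_of_nonneg (Eventually.of_forall fun x => mul_self_nonneg _) e2.integrable_sq (Eventually.of_forall fun x => ?_)
      change A.indicator (fun x => F v (c x)) x * A.indicator (fun x => F v (c x)) x ≤ (F v (c x)) ^ 2
      by_cases hx : x ∈ A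
      · rw [Set.indicator_of_mem hx, sq]
      · rw [Set.indicator_of_notMem hx, zero_mul]
        positivity
    have e5 : nsq (F v) = ‖v‖ ^ 2 := by
      rw [← real_inner_self_eq_norm_sq, ← hi]
      unfold nsq
      congr 1
      funext x
      ring
    have e6 : ‖(h0 v).toLp _‖ ^ 2 ≤ (11 / 10 * ‖v‖) ^ 2 := by
      rw [e1]
      refine (e4.trans e3).trans ?_
      rw [e5]
      have := sq_nonneg ‖v‖
      nlinarith
    exact le_of_sq_le_sq e6 (by positivity) 
  obtain ⟨L, hL⟩ : ∃ L : EuclideanSpace ℝ (Fin n) →ₗ[ℝ] MeasureTheory.Lp ℝ 2 (volume : Measure ℝ), ∀ v, L v = (h0 v).toLp _ :=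
    ⟨{ toFun := fun v => (h0 v).toLp _, map_add' := h1, map_smul' := h2 }, fun v => rfl⟩
  refine ⟨L.mkContinuous (11 / 10) (fun v => by rw [hL]; exact h3 v), fun v => ?_, LinearMap.mkContinuous_norm_le _ (by norm_num) _⟩
  rw [LinearMap.mkContinuous_apply, hL]
  exact (h0 v).coeFn_toLp

theorem gOPX (hFNC : gFNC_stmt) : gOPX_stmt := by
  intro ι _ _ u s n N p C F P hp hu hC hF hi hP
  have hex := fun (i : ι) (z : Fin (2 ^ (u - 1))) (o : Fin N) =>
    gOPX_one hFNC s n (C i o) F (cell u ((2 * (z : ℕ) + p : ℕ) : ℤ)) measurableSet_Ico (hC i o) hF hi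
  choose X hX hXn using hex
  refine ⟨X, hX, hXn, ?_, ?_⟩
  · intro i i' z z' o o' hz v w
    rw [gOPX_inner _ _ _ _ (hX i z o v) (hX i' z' o' w)]
    have h1 : ∀ x, (cell u ((2 * (z : ℕ) + p : ℕ) : ℤ)).indicator (fun x => F v (C i o x)) x *
        (cell u ((2 * (z' : ℕ) + p : ℕ) : ℤ)).indicator (fun x => F w (C i' o' x)) x = 0 := by
      intro x
      by_cases hx : x ∈ cell u ((2 * (z : ℕ) + p : ℕ) : ℤ)
      · have hx' : x ∉ cell u ((2 * (z' : ℕ) + p : ℕ) : ℤ) := by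
          intro hx'
          have h2 := gOPX_cell u _ _ x hx hx'
          apply hz
          apply Fin.ext
          have h3 : 2 * (z : ℕ) + p = 2 * (z' : ℕ) + p := by exact_mod_cast h2
          omega
        rw [Set.indicator_of_notMem hx', mul_zero]
      · rw [Set.indicator_of_notMem hx, zero_mul]
    simp only [h1, integral_zero]
  · intro i z o j hj
    ext1 v
    rw [ContinuousLinearMap.comp_apply, zero_apply]
    rw [MeasureTheory.Lp.eq_zero_iff_ae_eq_zero]
    refine (hX i z o (P j v)).trans (Eventually.of_forall fun x => ?_)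
    change (cell u ((2 * (z : ℕ) + p : ℕ) : ℤ)).indicator (fun x => F (P j v) (C i o x)) x = 0
    by_cases hx : x ∈ cell u ((2 * (z : ℕ) + p : ℕ) : ℤ)
    · rw [Set.indicator_of_mem hx, hP]
      by_cases hx' : C i o x ∈ cell u (j : ℕ)
      · rw [Set.indicator_of_mem hx']
        have h1 : ¬ (cell u (j : ℕ) ∩ Set.Icc (1 / 5 : ℝ) (4 / 5)).Nonempty := fun h =>
          hj ⟨h, x, hx, o, o.2, hx'⟩
        exact (hF v).2.1 _ fun h => h1 ⟨_, hx', h⟩
      · rw [Set.indicator_of_notMem hx']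
    · rw [Set.indicator_of_notMem hx]

end Pool.Agent.helper90.DH
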